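import Mathlib

set_option autoImplicit false

namespace Pool.Agent.Results.MP_038631_co.ConnectedFamily

open SimpleGraph

/-- Two cliques, on the vertices `≤ p` and on the vertices `≥ p`, sharing the vertex `p`. -/
def twoCl {n : ℕ} (p : Fin n) : SimpleGraph (Fin n) where
  Adj x y := x ≠ y ∧ ((x ≤ p ∧ y ≤ p) ∨ (p ≤ x ∧ p ≤ y))
  symm := ⟨fun _ _ h => ⟨h.1.symm, h.2.imp And.symm And.symm⟩⟩
  loopless := ⟨fun _ h => h.1 rfl⟩

theorem side {n : ℕ} {p x y : Fin n} (w : (twoCl p).Walk x y) (h : p ∉ w.support.dropLast) :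
    (x ≤ p → ∀ z ∈ w.support, z ≤ p) ∧ (p ≤ x → ∀ z ∈ w.support, p ≤ z) := by
  induction w with
  | nil => simp
  | @cons a b c hab q ih =>
    rw [Walk.support_cons, List.dropLast_cons_of_ne_nil q.support_ne_nil, List.mem_cons,
      not_or] at h
    have h1 : (p : ℕ) ≠ a := fun e => h.1 (Fin.ext e)
    have h2 := hab.2
    simp only [Fin.le_def] at h2
    simp only [Walk.support_cons, List.forall_mem_cons]
    exact ⟨fun ha => ⟨ha, (ih h.2).1 (by rw [Fin.le_def] at ha ⊢; omega)⟩,
      fun ha => ⟨ha, (ih h.2).2 (by rw [Fin.le_def] at ha ⊢; omega)⟩⟩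

theorem cycle_side {n : ℕ} {p x : Fin n} (w : (twoCl p).Walk x x) (hw : w.IsCycle) :
    (∀ z ∈ w.support, z ≤ p) ∨ ∀ z ∈ w.support, p ≤ z := by
  by_cases hp : p ∈ w.support
  · have h1 := hw.rotate hp
    have h2 : ∀ z ∈ w.support, z ∈ (w.rotate p hp).support := fun z hz =>
      (Walk.mem_support_rotate_iff w p hp).2 hz
    generalize w.rotate p hp = c at h1 h2
    cases c with
    | nil => exact absurd h1 Walk.not_isCycle_nil
    | @cons _ b _ hab q =>
      have h3 : q.support.Nodup := ((Walk.cons_isCycle_iff q hab).1 h1).1.support_nodup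
      have h4 : p ∉ q.support.dropLast := by
        rw [← List.dropLast_concat_getLast q.support_ne_nil, Walk.getLast_support,
          List.nodup_append] at h3
        exact fun h => h3.2.2 p h p (List.mem_singleton_self p) rfl
      have h5 := side q h4
      simp only [Walk.support_cons, List.mem_cons] at h2
      refine (le_total b p).imp (fun hb z hz => ?_) (fun hb z hz => ?_)
      · exact (h2 z hz).elim le_of_eq (h5.1 hb z)
      · exact (h2 z hz).elim ge_of_eq (h5.2 hb z)
  · have h5 := side w fun h => hp (List.mem_of_mem_dropLast h)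
    exact (le_total x p).imp h5.1 h5.2

theorem length_le_card {V : Type} [DecidableEq V] {G : SimpleGraph V} {x : V} (w : G.Walk x x)
    (hw : w.IsCycle) : w.length ≤ w.support.toFinset.card := by
  calc w.length = w.support.tail.toFinset.card := by
        rw [List.toFinset_card_of_nodup hw.support_nodup]
        simp [Walk.length_support]
    _ ≤ _ := Finset.card_le_card fun z hz =>
        List.mem_toFinset.2 (List.mem_of_mem_tail (List.mem_toFinset.1 hz))

theorem count_le {V : Type} [DecidableEq V] {G : SimpleGraph V} {k r : ℕ} (u : Fin k → V)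
    (c : ∀ i, G.Walk (u i) (u i)) (hc : ∀ i, (c i).IsCycle ∧ r ≤ (c i).length)
    (hd : ∀ i j, i ≠ j → ∀ z ∈ (c i).support, z ∉ (c j).support) (s : Finset (Fin k))
    (B : Finset V) (hB : ∀ i ∈ s, ∀ z ∈ (c i).support, z ∈ B) : s.card * r ≤ B.card := by
  calc s.card * r ≤ ∑ i ∈ s, (c i).support.toFinset.card :=
        Finset.card_nsmul_le_sum s _ r fun i _ => (hc i).2.trans (length_le_card _ (hc i).1)
    _ = (s.biUnion fun i => (c i).support.toFinset).card :=
        (Finset.card_biUnion fun i _ j _ hij =>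
          List.disjoint_toFinset_iff_disjoint.2 fun z hz => hd i j hij z hz).symm
    _ ≤ _ := Finset.card_le_card fun z hz => by
        obtain ⟨i, hi, hz⟩ := Finset.mem_biUnion.1 hz
        exact hB i hi z (List.mem_toFinset.1 hz)

/-- For odd `k`, odd `r` and every order `n` with `(r + 1) k + 1 ≤ n ≤ (k + 1) r - 3` (for example
`k = 3`, `r = 7`, `n = 25`; such `n` exist exactly when `r ≥ k + 4`) there is a connected graph of
order `n ≥ r k` and minimum degree at least `(r + 1) k / 2` without `k` pairwise vertex-disjoint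
cycles of length at least `r`. -/
theorem result (k r n : ℕ) (hko : Odd k) (hro : Odd r) (h1 : (r + 1) * k + 1 ≤ n)
    (h2 : n + 3 ≤ (k + 1) * r) :
    ∃ G : SimpleGraph (Fin n), G.Connected ∧ r * k ≤ Fintype.card (Fin n) ∧
      (∀ v : Fin n, (r + 1) * k ≤ 2 * (G.neighborSet v).ncard) ∧
      ¬ ∃ (u : Fin k → Fin n) (c : ∀ i : Fin k, G.Walk (u i) (u i)),
        (∀ i : Fin k, (c i).IsCycle ∧ r ≤ (c i).length) ∧
        ∀ i j : Fin k, i ≠ j → ∀ z ∈ (c i).support, z ∉ (c j).support := by
  have e1 : (r + 1) * k = r * k + k := by ring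
  obtain ⟨m, rfl⟩ := hko
  obtain ⟨d, rfl⟩ := hro
  have e3 : (2 * d + 1 + 1) * (2 * m + 1) = 2 * ((d + 1) * (2 * m + 1)) := by ring
  have e4 : (2 * m + 1 + 1) * (2 * d + 1) = 2 * ((m + 1) * (2 * d + 1)) := by ring
  let p : Fin n := ⟨n / 2, by omega⟩
  have hp : (p : ℕ) = n / 2 := rfl
  refine ⟨twoCl p, ?_, by rw [Fintype.card_fin]; omega, fun v => ?_, ?_⟩
  · rw [connected_iff_exists_forall_reachable]
    refine ⟨p, fun w => ?_⟩
    by_cases e : p = w
    · exact e ▸ Reachable.refl _
    · exact Adj.reachable ⟨e, (le_total w p).imp (fun h => ⟨le_rfl, h⟩) fun h => ⟨le_rfl, h⟩⟩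
  · rcases le_total v p with hv | hv
    · have h3 : ((Finset.Iic p).erase v : Set (Fin n)) ⊆ (twoCl p).neighborSet v := by
        intro z hz
        rw [Finset.mem_coe, Finset.mem_erase, Finset.mem_Iic] at hz
        exact ⟨hz.1.symm, Or.inl ⟨hv, hz.2⟩⟩
      have h4 := Set.ncard_le_ncard h3
      rw [Set.ncard_coe_finset, Finset.card_erase_of_mem (Finset.mem_Iic.2 hv), Fin.card_Iic] at h4
      omega
    · have h3 : ((Finset.Ici p).erase v : Set (Fin n)) ⊆ (twoCl p).neighborSet v := by
        intro z hz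
        rw [Finset.mem_coe, Finset.mem_erase, Finset.mem_Ici] at hz
        exact ⟨hz.1.symm, Or.inr ⟨hv, hz.2⟩⟩
      have h4 := Set.ncard_le_ncard h3
      rw [Set.ncard_coe_finset, Finset.card_erase_of_mem (Finset.mem_Ici.2 hv), Fin.card_Ici] at h4
      omega
  · rintro ⟨u, c, hc, hd⟩
    classical
    let P : Fin (2 * m + 1) → Prop := fun i => ∀ z ∈ (c i).support, z ≤ p
    have h3 := count_le u c hc hd (Finset.univ.filter P) (Finset.Iic p) fun i hi z hz =>
      Finset.mem_Iic.2 ((Finset.mem_filter.1 hi).2 z hz)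
    have h4 := count_le u c hc hd (Finset.univ.filter fun i => ¬ P i) (Finset.Ici p)
      fun i hi z hz => Finset.mem_Ici.2
        ((cycle_side (c i) (hc i).1).resolve_left (Finset.mem_filter.1 hi).2 z hz)
    have h5 := Finset.card_filter_add_card_filter_not (s := Finset.univ) P
    rw [Finset.card_univ, Fintype.card_fin] at h5
    rw [Fin.card_Iic] at h3
    rw [Fin.card_Ici] at h4
    rcases le_or_gt (m + 1) (Finset.univ.filter P).card with h6 | h6
    · have := Nat.mul_le_mul_right (2 * d + 1) h6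
      omega
    · have := Nat.mul_le_mul_right (2 * d + 1)
        (show m + 1 ≤ (Finset.univ.filter fun i => ¬ P i).card by omega)
      omega

end Pool.Agent.Results.MP_038631_co.ConnectedFamily
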