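import Pool.Agent.Lib.MP_038631_co.Low

namespace Pool.Agent.Results.MP_038631_co.LowConnectivity

open Pool.Agent.Lib.MP_038631_co

/-- For `k ≥ 2`, odd `r ≥ 3` and `2 s ≤ k + 3`: a graph of vertex connectivity `s` with at least
`r k` vertices, minimum degree at least `(r + 1) k / 2` and without `k` pairwise vertex-disjoint
cycles of length at least `r` exists exactly when `s ≤ 1`, `k` is odd and `r ≥ k + 4`. -/
theorem result : ∀ k r s : ℕ, 2 ≤ k → 3 ≤ r → Odd r → 2 * s ≤ k + 3 →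
    ((∃ (n : ℕ) (G : SimpleGraph (Fin n)), Kappa G s ∧ r * k ≤ n ∧
      (∀ v : Fin n, (r + 1) * k ≤ 2 * (G.neighborSet v).ncard) ∧
      ¬ ∃ (u : Fin k → Fin n) (c : ∀ i : Fin k, G.Walk (u i) (u i)),
        (∀ i : Fin k, (c i).IsCycle ∧ r ≤ (c i).length) ∧
        ∀ i j : Fin k, i ≠ j → ∀ z ∈ (c i).support, z ∉ (c j).support) ↔
      s ≤ 1 ∧ Odd k ∧ k + 4 ≤ r) := fun k r s hk hr ho hs => by
  refine ⟨fun ⟨n, G, h1, _, h2, h3⟩ => by_contra fun hc => h3 ?_, fun h => neg hk ho h.1 h.2.1 h.2.2⟩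
  obtain ⟨X, hX⟩ := pos hk hr ho hs h1 (fun v => deg_eq (G := G) v ▸ h2 v) hc
  exact hX.walks hr

end Pool.Agent.Results.MP_038631_co.LowConnectivity
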